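import Pool.Agent.Lib.MP_c534e4_co.Defs

/-! The poset chain ⊕ α ⊕ chain and its linear extensions (helper18). -/

set_option autoImplicit false

namespace KS

/-- chain with `n + 1` elements, then `α`, then chain with `n + 1` elements -/
inductive Ex (n : ℕ) (α : Type) : Type
  | lo : Fin (n + 1) → Ex n α
  | mid : α → Ex n α
  | hi : Fin (n + 1) → Ex n α

namespace Ex

variable {n : ℕ} {α : Type}

/-- the order relation -/
def rel [LE α] : Ex n α → Ex n α → Prop
  | lo i, lo j => i ≤ j
  | lo _, mid _ => True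
  | lo _, hi _ => True
  | mid _, lo _ => False
  | mid a, mid b => a ≤ b
  | mid _, hi _ => True
  | hi _, lo _ => False
  | hi _, mid _ => False
  | hi i, hi j => i ≤ j

instance instPO [PartialOrder α] : PartialOrder (Ex n α) where
  le := rel
  le_refl x := by cases x <;> simp [rel]
  le_trans x y z := by
    cases x <;> cases y <;> cases z <;> simp only [rel, imp_self, implies_true, false_imp_iff,
      imp_false, not_true_eq_false, not_false_eq_true] <;> exact le_trans
  le_antisymm x y := by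
    cases x <;> cases y <;> simp only [rel, imp_self, implies_true, false_imp_iff,
      imp_false, not_true_eq_false, not_false_eq_true, lo.injEq, mid.injEq, hi.injEq] <;>
      exact le_antisymm

section
variable [PartialOrder α]

@[simp] theorem lo_le_lo (i j : Fin (n + 1)) : (lo i : Ex n α) ≤ lo j ↔ i ≤ j := Iff.rfl
@[simp] theorem mid_le_mid (a b : α) : (mid a : Ex n α) ≤ mid b ↔ a ≤ b := Iff.rfl
@[simp] theorem hi_le_hi (i j : Fin (n + 1)) : (hi i : Ex n α) ≤ hi j ↔ i ≤ j := Iff.rfl
@[simp] theorem lo_le_mid (i : Fin (n + 1)) (a : α) : (lo i : Ex n α) ≤ mid a := trivial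
@[simp] theorem lo_le_hi (i j : Fin (n + 1)) : (lo i : Ex n α) ≤ hi j := trivial
@[simp] theorem mid_le_hi (a : α) (j : Fin (n + 1)) : (mid a : Ex n α) ≤ hi j := trivial
@[simp] theorem mid_le_lo (i : Fin (n + 1)) (a : α) : ¬ (mid a : Ex n α) ≤ lo i := fun h => h
@[simp] theorem hi_le_lo (i j : Fin (n + 1)) : ¬ (hi i : Ex n α) ≤ lo j := fun h => h
@[simp] theorem hi_le_mid (i : Fin (n + 1)) (a : α) : ¬ (hi i : Ex n α) ≤ mid a := fun h => h

@[simp] theorem lo_lt_lo (i j : Fin (n + 1)) : (lo i : Ex n α) < lo j ↔ i < j := by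
  rw [lt_iff_le_not_ge, lo_le_lo, lo_le_lo, ← lt_iff_le_not_ge]
@[simp] theorem mid_lt_mid (a b : α) : (mid a : Ex n α) < mid b ↔ a < b := by
  simp [lt_iff_le_not_ge]
@[simp] theorem hi_lt_hi (i j : Fin (n + 1)) : (hi i : Ex n α) < hi j ↔ i < j := by
  rw [lt_iff_le_not_ge, hi_le_hi, hi_le_hi, ← lt_iff_le_not_ge]
@[simp] theorem lo_lt_mid (i : Fin (n + 1)) (a : α) : (lo i : Ex n α) < mid a := by
  simp [lt_iff_le_not_ge]
@[simp] theorem lo_lt_hi (i j : Fin (n + 1)) : (lo i : Ex n α) < hi j := by
  simp [lt_iff_le_not_ge]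
@[simp] theorem mid_lt_hi (a : α) (j : Fin (n + 1)) : (mid a : Ex n α) < hi j := by
  simp [lt_iff_le_not_ge]
@[simp] theorem mid_lt_lo (i : Fin (n + 1)) (a : α) : ¬ (mid a : Ex n α) < lo i := by
  simp [lt_iff_le_not_ge]
@[simp] theorem hi_lt_lo (i j : Fin (n + 1)) : ¬ (hi i : Ex n α) < lo j := by
  simp [lt_iff_le_not_ge]
@[simp] theorem hi_lt_mid (i : Fin (n + 1)) (a : α) : ¬ (hi i : Ex n α) < mid a := by
  simp [lt_iff_le_not_ge]

instance instBO : BoundedOrder (Ex n α) where
  top := hi (Fin.last n)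
  le_top x := by cases x <;> simp [Fin.le_last]
  bot := lo 0
  bot_le x := by cases x <;> simp

theorem top_eq : (⊤ : Ex n α) = hi (Fin.last n) := rfl
theorem bot_eq : (⊥ : Ex n α) = lo 0 := rfl

theorem total_or (x y : Ex n α) : x ≤ y ∨ y ≤ x ∨ ∃ a b, x = mid a ∧ y = mid b := by
  cases x <;> cases y <;> simp [le_total]

end

/-- the underlying sum -/
def equivSum (n : ℕ) (α : Type) : Ex n α ≃ (Fin (n + 1) ⊕ (α ⊕ Fin (n + 1))) where
  toFun
    | lo i => Sum.inl i
    | mid a => Sum.inr (Sum.inl a)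
    | hi i => Sum.inr (Sum.inr i)
  invFun
    | Sum.inl i => lo i
    | Sum.inr (Sum.inl a) => mid a
    | Sum.inr (Sum.inr i) => hi i
  left_inv x := by cases x <;> rfl
  right_inv x := by rcases x with i | a | i <;> rfl

instance instFT [Fintype α] : Fintype (Ex n α) := Fintype.ofEquiv _ (equivSum n α).symm

theorem card_eq [Fintype α] : Fintype.card (Ex n α) = (n + 1) + (Fintype.card α + (n + 1)) := by
  rw [Fintype.card_congr (equivSum n α)]
  simp

section
variable [Fintype α] [PartialOrder α]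

/-- The position of an element comparable to all the others. -/
theorem pos_eq {Q : Type} [Fintype Q] [PartialOrder Q] (σ : LinExt Q) (q : Q)
    (hq : ∀ w, w ≤ q ∨ q ≤ w) (s : Finset Q) (hs : ∀ w, w ∈ s ↔ w < q) :
    ((σ.1 q : Fin _) : ℕ) = s.card := by
  classical
  have h1 : s.map σ.1.toEmbedding = Finset.Iio (σ.1 q) := by
    ext k
    simp only [Finset.mem_map, Equiv.coe_toEmbedding, Finset.mem_Iio, hs]
    constructor
    · rintro ⟨w, hw, rfl⟩
      exact σ.2 hw
    · intro hk
      refine ⟨σ.1.symm k, ?_, by simp⟩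
      rcases hq (σ.1.symm k) with h | h
      · refine lt_of_le_of_ne h ?_
        intro h2
        rw [← h2] at hk
        simp at hk
      · have := σ.2.monotone h
        simp only [Equiv.apply_symm_apply] at this
        exact absurd hk (not_lt.mpr this)
  rw [← Finset.card_map σ.1.toEmbedding (s := s), h1, Fin.card_Iio]

theorem lo_inj : Function.Injective (lo : Fin (n + 1) → Ex n α) := fun a b h => by
  simpa using h

theorem mid_inj : Function.Injective (mid : α → Ex n α) := fun a b h => by
  simpa using h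

theorem hi_inj : Function.Injective (hi : Fin (n + 1) → Ex n α) := fun a b h => by
  simpa using h

theorem pos_lo (σ : LinExt (Ex n α)) (i : Fin (n + 1)) : ((σ.1 (lo i) : Fin _) : ℕ) = i := by
  classical
  rw [pos_eq σ (lo i) (fun w => by cases w <;> simp [le_total])
    ((Finset.Iio i).image lo) (fun w => by cases w <;> simp)]
  rw [Finset.card_image_of_injective _ lo_inj, Fin.card_Iio]

theorem pos_hi (σ : LinExt (Ex n α)) (j : Fin (n + 1)) :
    ((σ.1 (hi j) : Fin _) : ℕ) = (n + 1) + Fintype.card α + j := by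
  classical
  rw [pos_eq σ (hi j) (fun w => by cases w <;> simp [le_total])
    ((Finset.univ.image lo ∪ Finset.univ.image mid) ∪ (Finset.Iio j).image hi)
    (fun w => by cases w <;> simp)]
  rw [Finset.card_union_of_disjoint, Finset.card_union_of_disjoint,
    Finset.card_image_of_injective _ lo_inj, Finset.card_image_of_injective _ mid_inj,
    Finset.card_image_of_injective _ hi_inj, Fin.card_Iio]
  · simp
  · rw [Finset.disjoint_left]
    intro x
    cases x <;> simp
  · rw [Finset.disjoint_left]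
    intro x
    cases x <;> simp

theorem pos_mid_ge (σ : LinExt (Ex n α)) (a : α) : n + 1 ≤ ((σ.1 (mid a) : Fin _) : ℕ) := by
  have h := σ.2 (lo_lt_mid (Fin.last n) a)
  have h2 := pos_lo σ (Fin.last n)
  rw [Fin.lt_def, h2] at h
  simpa using h

theorem pos_mid_lt (σ : LinExt (Ex n α)) (a : α) :
    ((σ.1 (mid a) : Fin _) : ℕ) < (n + 1) + Fintype.card α := by
  have h := σ.2 (mid_lt_hi a (0 : Fin (n + 1)))
  have h2 := pos_hi σ (0 : Fin (n + 1))
  rw [Fin.lt_def, h2] at h
  simpa using h

/-- restriction of a linear extension to the middle part -/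
noncomputable def restr (σ : LinExt (Ex n α)) : LinExt α := by
  refine ⟨Equiv.ofBijective (fun a => (⟨((σ.1 (mid a) : Fin _) : ℕ) - (n + 1), ?_⟩ :
    Fin (Fintype.card α))) ?_, ?_⟩
  · have h1 := pos_mid_ge σ a
    have h2 := pos_mid_lt σ a
    omega
  · rw [Fintype.bijective_iff_injective_and_card]
    refine ⟨?_, by simp⟩
    intro a b hab
    have h1 := pos_mid_ge σ a
    have h2 := pos_mid_ge σ b
    simp only [Fin.mk.injEq] at hab
    have h3 : ((σ.1 (mid a) : Fin _) : ℕ) = ((σ.1 (mid b) : Fin _) : ℕ) := by omega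
    exact mid_inj (σ.1.injective (Fin.ext h3))
  · intro a b hab
    have h1 := pos_mid_ge σ a
    have h2 := pos_mid_ge σ b
    have h3 : ((σ.1 (mid a) : Fin _) : ℕ) < ((σ.1 (mid b) : Fin _) : ℕ) :=
      Fin.lt_def.mp (σ.2 ((mid_lt_mid a b).mpr hab))
    simp only [Equiv.ofBijective_apply, Fin.mk_lt_mk]
    omega

theorem restr_val (σ : LinExt (Ex n α)) (a : α) :
    (((restr σ).1 a : Fin _) : ℕ) = ((σ.1 (mid a) : Fin _) : ℕ) - (n + 1) := rfl

theorem restr_lt (σ : LinExt (Ex n α)) (a b : α) :
    (restr σ).1 a < (restr σ).1 b ↔ σ.1 (mid a) < σ.1 (mid b) := by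
  rw [Fin.lt_def, Fin.lt_def, restr_val, restr_val]
  have h1 := pos_mid_ge σ a
  have h2 := pos_mid_ge σ b
  omega

theorem restr_injective : Function.Injective (restr : LinExt (Ex n α) → LinExt α) := by
  intro σ τ h
  apply Subtype.ext
  apply Equiv.ext
  intro x
  apply Fin.ext
  cases x with
  | lo i => rw [pos_lo, pos_lo]
  | hi j => rw [pos_hi, pos_hi]
  | mid a =>
    have h1 := restr_val σ a
    have h2 := restr_val τ a
    rw [h] at h1
    have h3 := pos_mid_ge σ a
    have h4 := pos_mid_ge τ a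
    omega

theorem restr_surjective : Function.Surjective (restr : LinExt (Ex n α) → LinExt α) := by
  intro τ
  let f : Ex n α → Fin (Fintype.card (Ex n α)) := fun x =>
    match x with
    | lo i => ⟨i, by rw [card_eq]; omega⟩
    | mid a => ⟨(n + 1) + τ.1 a, by rw [card_eq]; omega⟩
    | hi j => ⟨(n + 1) + (Fintype.card α + j), by rw [card_eq]; omega⟩
  have hf : Function.Injective f := by
    intro x y h
    cases x <;> cases y <;> simp only [f, Fin.mk.injEq] at h
    · exact congrArg lo (Fin.ext h)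
    · omega
    · omega
    · omega
    · exact congrArg mid (τ.1.injective (Fin.ext (by omega)))
    · omega
    · omega
    · omega
    · exact congrArg hi (Fin.ext (by omega))
  have hb : Function.Bijective f := by
    rw [Fintype.bijective_iff_injective_and_card]
    exact ⟨hf, by simp⟩
  refine ⟨⟨Equiv.ofBijective f hb, ?_⟩, ?_⟩
  · intro x y h
    simp only [Equiv.ofBijective_apply]
    cases x <;> cases y <;> simp only [f, Fin.mk_lt_mk]
    · exact Fin.lt_def.mp ((lo_lt_lo _ _).mp h)
    · omega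
    · omega
    · exact absurd h (by simp)
    · have := τ.2 ((mid_lt_mid _ _).mp h)
      rw [Fin.lt_def] at this
      omega
    · omega
    · exact absurd h (by simp)
    · exact absurd h (by simp)
    · have := Fin.lt_def.mp ((hi_lt_hi _ _).mp h)
      omega
  · apply Subtype.ext
    apply Equiv.ext
    intro a
    apply Fin.ext
    rw [restr_val]
    simp only [Equiv.ofBijective_apply, f]
    omega

theorem natCard_all : Nat.card {σ : Ex n α ≃ Fin (Fintype.card (Ex n α)) // StrictMono ⇑σ} =
    Nat.card {σ : α ≃ Fin (Fintype.card α) // StrictMono ⇑σ} :=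
  Nat.card_congr (Equiv.ofBijective _ ⟨restr_injective, restr_surjective⟩)

theorem natCard_lt (a b : α) :
    Nat.card {σ : Ex n α ≃ Fin (Fintype.card (Ex n α)) // StrictMono ⇑σ ∧ σ (mid a) < σ (mid b)} =
    Nat.card {σ : α ≃ Fin (Fintype.card α) // StrictMono ⇑σ ∧ σ a < σ b} := by
  have e1 : {σ : Ex n α ≃ Fin (Fintype.card (Ex n α)) // StrictMono ⇑σ ∧ σ (mid a) < σ (mid b)} ≃
      {σ : LinExt (Ex n α) // σ.1 (mid a) < σ.1 (mid b)} :=
    (Equiv.subtypeSubtypeEquivSubtypeInter _ _).symm
  have e2 : {σ : α ≃ Fin (Fintype.card α) // StrictMono ⇑σ ∧ σ a < σ b} ≃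
      {σ : LinExt α // σ.1 a < σ.1 b} :=
    (Equiv.subtypeSubtypeEquivSubtypeInter _ _).symm
  rw [Nat.card_congr e1, Nat.card_congr e2]
  apply Nat.card_congr
  exact (Equiv.ofBijective _ ⟨restr_injective, restr_surjective⟩).subtypeEquiv
    (fun σ => (restr_lt σ a b).symm)

end

end Ex

end KS
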